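import Mathlib
import Pool.Agent.TH851.Pair

set_option autoImplicit false

/-!
# Every exponent pair `(p, q)` of the class of `MP_493793_nt` satisfies `p + 2 q ≥ 1/2`
-/

namespace Pool.Agent.Results.MP_493793_nt.PairsAboveLine

/-- `f` is admissible at scale `N` with parameter `F` and constants `c_j, C_j`. -/
def Admissible (c C : ℕ → ℝ) (N F : ℝ) (f : ℝ → ℝ) : Prop :=
  N ≤ F ∧ ContDiffOn ℝ (⊤ : ℕ∞) f (Set.Icc N (2 * N)) ∧
    ∀ j : ℕ, ∀ x ∈ Set.Icc N (2 * N),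
      c j * F / N ^ j ≤ |iteratedDerivWithin j f (Set.Icc N (2 * N)) x| ∧
      |iteratedDerivWithin j f (Set.Icc N (2 * N)) x| ≤ C j * F / N ^ j

/-- `(p, q)` is an exponent pair: for all `ε > 0` and all positive sequences `c_j, C_j` there is a
constant `K` with `|∑_{N ≤ n ≤ N'} e(f(n))| ≤ K F^p N^{q-p+1/2} F^ε` for all
`2 ≤ N ≤ N' ≤ 2N` and all admissible `f`. -/
def IsExponentPair (p q : ℝ) : Prop :=
  ∀ ε : ℝ, 0 < ε → ∀ c C : ℕ → ℝ, (∀ j, 0 < c j) → (∀ j, 0 < C j) →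
    ∃ K : ℝ, ∀ N N' F : ℝ, ∀ f : ℝ → ℝ,
      2 ≤ N → N ≤ N' → N' ≤ 2 * N → Admissible c C N F f →
      ‖∑ n ∈ Finset.Icc ⌈N⌉₊ ⌊N'⌋₊,
          Complex.exp (2 * (Real.pi : ℂ) * Complex.I * ((f (n : ℝ) : ℝ) : ℂ))‖
        ≤ K * (F ^ p * N ^ (q - p + 1 / 2) * F ^ ε)

/-- Every exponent pair lies on or above the line `p + 2q = 1/2`. -/
theorem result : ∀ p q : ℝ, IsExponentPair p q → 1 / 2 ≤ p + 2 * q := by
  intro p q hpq
  by_contra hcon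
  push Not at hcon
  -- choose ε with 1/2 + p/2 + q + 3ε/2 < 3/4
  set ε : ℝ := (1 / 2 - (p + 2 * q)) / 6 with hε
  have hε0 : 0 < ε := by rw [hε]; linarith
  obtain ⟨K, hK⟩ := hpq ε hε0 TH851.cLow TH851.cUp TH851.cLow_pos TH851.cUp_pos
  have hσ : 3 / 2 * p + (q - p + 1 / 2) + 3 / 2 * ε < 3 / 4 := by rw [hε]; linarith
  obtain ⟨N, N', hN, hNN', hN', hlt⟩ := TH851.exceed _ hσ K
  have hN0 : 0 < N := by linarith
  have hNF : N ≤ N ^ (3 / 2 : ℝ) := by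
    calc N = N ^ (1 : ℝ) := (Real.rpow_one N).symm
      _ ≤ N ^ (3 / 2 : ℝ) := Real.rpow_le_rpow_of_exponent_le (by linarith) (by norm_num)
  have h := hK N N' (N ^ (3 / 2 : ℝ)) TH851.f0 hN hNN' hN'
    ⟨hNF, TH851.contDiff_f0 hN, TH851.adm_f0 hN⟩
  have h1 : (N ^ (3 / 2 : ℝ)) ^ p * N ^ (q - p + 1 / 2) * (N ^ (3 / 2 : ℝ)) ^ ε
      = N ^ (3 / 2 * p + (q - p + 1 / 2) + 3 / 2 * ε) := by
    rw [← Real.rpow_mul hN0.le, ← Real.rpow_mul hN0.le, ← Real.rpow_add hN0, ← Real.rpow_add hN0]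
  rw [h1] at h
  exact absurd h (not_le.2 hlt)

end Pool.Agent.Results.MP_493793_nt.PairsAboveLine
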